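import Pool.Agent.H57.FuDisc

set_option autoImplicit false

namespace Pool.Agent.Results.MP_23bd8d_gt.UnderCH

theorem result (hCH : Cardinal.continuum.{0} = Cardinal.aleph 1) :
    ¬ (∀ (X : Type) [TopologicalSpace X] [T35Space X],
      (∀ D : Set {f : X → ℝ | Continuous f},
          DiscreteTopology D → FrechetUrysohnSpace (closure D)) →
        FrechetUrysohnSpace {f : X → ℝ | Continuous f}) :=
  Pool.Agent.H57.Pr.fu hCH

end Pool.Agent.Results.MP_23bd8d_gt.UnderCH
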